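import Mathlib
import Pool.Agent.Q7.Sl2Forms

/-!
# Commutators in a Leonard triple under an antiautomorphism

Over a field `K` of characteristic `0` in which `-1` is not a square (for instance `ℝ` or `ℚ`),
for every `d ≥ 1`, the Leonard triple `h, e + f, 5 h + 3 (e - f)` on `K ^ (d + 1)` has no
antiautomorphism fixing `h` and sending `[h, e + f]` to a multiple of `[h, 5 h + 3 (e - f)]`.
-/

set_option autoImplicit false

namespace Pool.Agent.Results.MP_f77be9_al.NoAntiaut

open Matrix Polynomial Q7.Sl2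

variable {K : Type*} [Field K]

/-- A square matrix is irreducible tridiagonal: the entries `(i, j)` with `|i - j| > 1` are zero,
and the entries `(i, j)` with `|i - j| = 1` are nonzero. -/
def IsIrredTridiagonal {n : ℕ} (M : Matrix (Fin n) (Fin n) K) : Prop :=
  ∀ i j : Fin n, (((i : ℕ) + 1 < j ∨ (j : ℕ) + 1 < i) → M i j = 0) ∧
    (((i : ℕ) + 1 = j ∨ (j : ℕ) + 1 = i) → M i j ≠ 0)

/-- There is a basis of `V` in which `X` is represented by a diagonal matrix and `Y`, `Z` are
represented by irreducible tridiagonal matrices. -/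
def Diagonalizes {V : Type*} [AddCommGroup V] [Module K V] (X Y Z : Module.End K V) : Prop :=
  ∃ (n : ℕ) (b : Module.Basis (Fin n) K V),
    (LinearMap.toMatrix b b X).IsDiag ∧ IsIrredTridiagonal (LinearMap.toMatrix b b Y) ∧
      IsIrredTridiagonal (LinearMap.toMatrix b b Z)

/-- `X, Y, Z` is a Leonard triple on `V`. -/
def IsLeonardTriple {V : Type*} [AddCommGroup V] [Module K V] (X Y Z : Module.End K V) : Prop :=
  Diagonalizes X Y Z ∧ Diagonalizes Y Z X ∧ Diagonalizes Z X Y

/-- The commutator `[X, Y] = X Y - Y X`. -/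
def comm {V : Type*} [AddCommGroup V] [Module K V] (X Y : Module.End K V) : Module.End K V :=
  X * Y - Y * X

/-- `σ` is an antiautomorphism: a `K`-linear bijection reversing products. -/
def IsAntiaut {V : Type*} [AddCommGroup V] [Module K V]
    (σ : Module.End K V ≃ₗ[K] Module.End K V) : Prop :=
  ∀ X Y, σ (X * Y) = σ Y * σ X

/-- Some antiautomorphism of `End V` fixes `X` and sends `[X, Y]` to a scalar multiple of
`[X, Z]`. -/
def HasAntiaut {V : Type*} [AddCommGroup V] [Module K V] (X Y Z : Module.End K V) : Prop :=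
  ∃ σ : Module.End K V ≃ₗ[K] Module.End K V, IsAntiaut σ ∧ σ X = X ∧
    ∃ a : K, σ (comm X Y) = a • comm X Z

lemma diagonalizes_of_acts [CharZero K] {d : ℕ} {M N₁ N₂ : Matrix (Fin (d + 1)) (Fin (d + 1)) K}
    {v : ℕ → Fin (d + 1) → K} {p s p₁ q₁ r₁ s₁ p₂ q₂ r₂ s₂ : K} (h : Acts M v p 0 0 s)
    (hps : p ≠ s) (hv : ∀ j ≤ d, v j ≠ 0)
    (h₁ : Acts N₁ v p₁ q₁ r₁ s₁) (hq₁ : q₁ ≠ 0) (hr₁ : r₁ ≠ 0)
    (h₂ : Acts N₂ v p₂ q₂ r₂ s₂) (hq₂ : q₂ ≠ 0) (hr₂ : r₂ ≠ 0) :
    Diagonalizes M.mulVecLin N₁.mulVecLin N₂.mulVecLin := by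
  obtain ⟨b, h1, h2, h3⟩ := exists_basis_of_acts h hps hv h₁ hq₁ hr₁ h₂ hq₂ hr₂
  exact ⟨d + 1, b, h1, h2, h3⟩

/-- The triple `h, e + f, 3 e - 3 f + 5 h` is a Leonard triple. -/
lemma isLeonardTriple [CharZero K] (d : ℕ) :
    IsLeonardTriple (comb d (0 : K) 0 1).mulVecLin (comb d (1 : K) 1 0).mulVecLin
      (comb d (3 : K) (-3) 5).mulVecLin := by
  refine ⟨?_, ?_, ?_⟩
  · have h1 : Acts (comb d (0 : K) 0 1) (fun j => vec d (form d 1 0 0 1 j)) 1 0 0 (-1) :=
      comb_acts (by ring) (by ring) (by ring) (by ring)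
    have h2 : Acts (comb d (1 : K) 1 0) (fun j => vec d (form d 1 0 0 1 j)) 0 1 1 0 :=
      comb_acts (by ring) (by ring) (by ring) (by ring)
    have h3 : Acts (comb d (3 : K) (-3) 5) (fun j => vec d (form d 1 0 0 1 j)) 5 (-3) 3 (-5) :=
      comb_acts (by ring) (by ring) (by ring) (by ring)
    exact diagonalizes_of_acts h1 (by norm_num) (fun j hj => vec_form_ne_zero _ _ _ _
      (form_const_ne_zero one_ne_zero) (form_lin_ne_zero one_ne_zero) hj)
      h2 (by norm_num) (by norm_num) h3 (by norm_num) (by norm_num)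
  · have h1 : Acts (comb d (0 : K) 0 1) (fun j => vec d (form d 1 1 1 (-1) j)) 0 1 1 0 :=
      comb_acts (by ring) (by ring) (by ring) (by ring)
    have h2 : Acts (comb d (1 : K) 1 0) (fun j => vec d (form d 1 1 1 (-1) j)) 1 0 0 (-1) :=
      comb_acts (by ring) (by ring) (by ring) (by ring)
    have h3 : Acts (comb d (3 : K) (-3) 5) (fun j => vec d (form d 1 1 1 (-1) j)) 0 8 2 0 :=
      comb_acts (by ring) (by ring) (by ring) (by ring)
    exact diagonalizes_of_acts h2 (by norm_num) (fun j hj => vec_form_ne_zero _ _ _ _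
      (form_const_ne_zero one_ne_zero) (form_const_ne_zero one_ne_zero) hj)
      h3 (by norm_num) (by norm_num) h1 (by norm_num) (by norm_num)
  · have h1 : Acts (comb d (0 : K) 0 1) (fun j => vec d (form d 3 (-1) 1 (-3) j))
        (5 / 4) (-3 / 4) (3 / 4) (-5 / 4) :=
      comb_acts (by ring) (by ring) (by ring) (by ring)
    have h2 : Acts (comb d (1 : K) 1 0) (fun j => vec d (form d 3 (-1) 1 (-3) j))
        0 (-1) (-1) 0 :=
      comb_acts (by ring) (by ring) (by ring) (by ring)
    have h3 : Acts (comb d (3 : K) (-3) 5) (fun j => vec d (form d 3 (-1) 1 (-3) j))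
        4 0 0 (-4) :=
      comb_acts (by ring) (by ring) (by ring) (by ring)
    exact diagonalizes_of_acts h3 (by norm_num) (fun j hj => vec_form_ne_zero _ _ _ _
      (form_const_ne_zero (by norm_num)) (form_const_ne_zero one_ne_zero) hj)
      h1 (by norm_num) (by norm_num) h2 (by norm_num) (by norm_num)

/-- An anti-multiplicative bijection commutes with the evaluation of polynomials. -/
lemma anti_aeval {R : Type*} [Ring R] [Algebra K R] (σ : R ≃ₗ[K] R)
    (hσ : ∀ X Y, σ (X * Y) = σ Y * σ X) (x : R) (f : K[X]) :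
    σ (aeval x f) = aeval (σ x) f := by
  have h1 : σ 1 = 1 := by
    obtain ⟨y, hy⟩ := σ.surjective 1
    have h2 : σ (y * 1) = σ 1 * σ y := hσ y 1
    rw [mul_one, hy, mul_one] at h2
    exact h2.symm
  have hpow : ∀ n : ℕ, σ (x ^ n) = σ x ^ n := by
    intro n
    induction n with
    | zero => simp [h1]
    | succ n ih => rw [pow_succ, hσ, ih, pow_succ']
  induction f using Polynomial.induction_on' with
  | add p q hp hq => rw [map_add, map_add, map_add, hp, hq]
  | monomial n a =>
    rw [aeval_monomial, aeval_monomial, ← Algebra.smul_def, ← Algebra.smul_def, map_smul, hpow]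

lemma aeval_diagonal {n : ℕ} (v : Fin n → K) (f : K[X]) :
    aeval (diagonal v) f = diagonal fun i => f.eval (v i) := by
  induction f using Polynomial.induction_on' with
  | add p q hp hq =>
    rw [map_add, hp, hq, diagonal_add]
    simp
  | monomial n a =>
    rw [aeval_monomial, ← Algebra.smul_def, diagonal_pow, ← diagonal_smul]
    congr 1
    ext i
    simp

/-- The primitive idempotents of a diagonal matrix with distinct entries. -/
lemma exists_idempotent {n : ℕ} (v : Fin n → K) (hv : Function.Injective v) (i : Fin n) :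
    ∃ f : K[X], aeval (diagonal v) f = Matrix.single i i 1 := by
  refine ⟨Lagrange.basis Finset.univ v i, ?_⟩
  rw [aeval_diagonal]
  ext j k
  rw [diagonal_apply, single_apply]
  split_ifs with h1 h2 h2
  · subst h1
    obtain ⟨rfl, -⟩ := h2
    exact Lagrange.eval_basis_self hv.injOn (Finset.mem_univ _)
  · subst h1
    exact Lagrange.eval_basis_of_ne (fun h => h2 ⟨h, h⟩) (Finset.mem_univ _)
  · exact absurd (h2.1.symm.trans h2.2) h1
  · rfl

/-- The matrix form of the obstruction. -/
lemma no_anti {n : ℕ} (v : Fin n → K) (hv : Function.Injective v)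
    (σ : Matrix (Fin n) (Fin n) K ≃ₗ[K] Matrix (Fin n) (Fin n) K)
    (hσ : ∀ X Y, σ (X * Y) = σ Y * σ X) (hx : σ (diagonal v) = diagonal v)
    (c c' : Matrix (Fin n) (Fin n) K) (a : K) (h : σ c = a • c') (i j : Fin n) :
    c i j * c j i = a * c' i j * (a * c' j i) := by
  obtain ⟨f, hf⟩ := exists_idempotent v hv i
  obtain ⟨g, hg⟩ := exists_idempotent v hv j
  have hE : σ (Matrix.single i i 1) = Matrix.single i i 1 := by
    rw [← hf, anti_aeval σ hσ, hx]
  have hF : σ (Matrix.single j j 1) = Matrix.single j j 1 := by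
    rw [← hg, anti_aeval σ hσ, hx]
  have key : ∀ m : Matrix (Fin n) (Fin n) K,
      Matrix.single i i 1 * m * Matrix.single j j 1 * m * Matrix.single i i 1 =
        (m i j * m j i) • Matrix.single i i (1 : K) := by
    intro m
    rw [Matrix.single_mul_mul_single, Matrix.single_mul_mul_single, smul_single]
    simp
  have h1 := congrArg σ (key c)
  rw [hσ, hσ, hσ, hσ, hE, hF, h, map_smul, hE] at h1
  have h2 := key (a • c')
  have h3 : Matrix.single i i 1 * ((a • c') * (Matrix.single j j 1 * ((a • c') *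
      Matrix.single i i 1))) = Matrix.single i i 1 * (a • c') * Matrix.single j j 1 * (a • c') *
        Matrix.single i i 1 := by
    simp only [Matrix.mul_assoc]
  rw [h3, h2] at h1
  have h4 := congrFun (congrFun h1 i) i
  simpa using h4.symm

/-- If `K` has characteristic `0` and `-1` is not a square in `K`, then for every `d ≥ 1` there
is a Leonard triple `A, A*, A^ε` on `K ^ (d + 1)` such that no antiautomorphism of `End(V)` fixing
`A` sends `[A, A*]` to a scalar multiple of `[A, A^ε]`. -/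
theorem result (K : Type*) [Field K] [CharZero K] (hK : ¬ IsSquare (-1 : K)) (d : ℕ)
    (hd : 1 ≤ d) :
    ∃ A As Aε : Module.End K (Fin (d + 1) → K), IsLeonardTriple A As Aε ∧
      ¬ HasAntiaut A As Aε := by
  refine ⟨_, _, _, isLeonardTriple d, fun ⟨σ, hσ, hA, a, ha⟩ => hK ?_⟩
  rw [comm, comm] at ha
  let T : Matrix (Fin (d + 1)) (Fin (d + 1)) K ≃ₐ[K] Module.End K (Fin (d + 1) → K) :=
    Matrix.toLinAlgEquiv'
  have hT : ∀ M, T M = M.mulVecLin := fun M => Matrix.toLin'_apply' M
  let τ : Matrix (Fin (d + 1)) (Fin (d + 1)) K ≃ₗ[K] Matrix (Fin (d + 1)) (Fin (d + 1)) K :=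
    (T.toLinearEquiv.trans σ).trans T.symm.toLinearEquiv
  have hτ : ∀ M, τ M = T.symm (σ (T M)) := fun M => rfl
  have hτm : ∀ X Y, τ (X * Y) = τ Y * τ X := by
    intro X Y
    rw [hτ, hτ, hτ, map_mul, hσ, map_mul]
  have hv : Function.Injective fun i : Fin (d + 1) => (d : K) - 2 * (i : ℕ) := by
    intro i j hij
    have h1 : (2 : K) * ((i : ℕ) - (j : ℕ)) = 0 := by
      have : (d : K) - 2 * (i : ℕ) = (d : K) - 2 * (j : ℕ) := hij
      linear_combination -this
    rcases mul_eq_zero.1 h1 with h | h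
    · norm_num at h
    · exact Fin.ext (Nat.cast_injective (sub_eq_zero.1 h))
  have hcH : comb d (0 : K) 0 1 = diagonal fun i : Fin (d + 1) => (d : K) - 2 * (i : ℕ) := by
    simp [comb, matH]
  have hx : τ (diagonal fun i : Fin (d + 1) => (d : K) - 2 * (i : ℕ)) =
      diagonal fun i : Fin (d + 1) => (d : K) - 2 * (i : ℕ) := by
    rw [hτ, ← hcH, hT, hA, ← hT, AlgEquiv.symm_apply_apply]
  have hc : τ (comb d (0 : K) 0 1 * comb d (1 : K) 1 0 - comb d (1 : K) 1 0 * comb d (0 : K) 0 1) =
      a • (comb d (0 : K) 0 1 * comb d (3 : K) (-3) 5 -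
        comb d (3 : K) (-3) 5 * comb d (0 : K) 0 1) := by
    rw [hτ, map_sub, map_mul, map_mul, hT, hT, ha, map_smul, map_sub, map_mul, map_mul, ← hT, ← hT,
      AlgEquiv.symm_apply_apply, AlgEquiv.symm_apply_apply]
  have key := no_anti _ hv τ hτm hx _ _ a hc ⟨0, by omega⟩ ⟨1, by omega⟩
  rw [hcH] at key
  simp only [Matrix.sub_apply, diagonal_mul, mul_diagonal] at key
  simp [comb, matE, matF, matH] at key
  have hd0 : (d : K) ≠ 0 := Nat.cast_ne_zero.2 (by omega)
  refine ⟨3 * a, ?_⟩
  apply mul_left_cancel₀ hd0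
  linear_combination key / 4

end Pool.Agent.Results.MP_f77be9_al.NoAntiaut
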